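import Mathlib

/-! Hardy's inequality along a direction, through Schur's test. -/

set_option autoImplicit false

open MeasureTheory Set
open scoped ENNReal

namespace Pool.Agent.MP_fcd29e_an.H59

theorem cs {X : Type} [MeasurableSpace X] (μ : Measure X) (A B G : X → ℝ≥0∞)
    (hA : AEMeasurable A μ) (hB : AEMeasurable B μ) (h : ∀ t, G t ^ 2 ≤ A t * B t) :
    (∫⁻ t, G t ∂μ) ^ 2 ≤ (∫⁻ t, A t ∂μ) * ∫⁻ t, B t ∂μ := by
  have h1 := ENNReal.lintegral_mul_norm_pow_le hA hB (p := 1 / 2) (q := 1 / 2) (by norm_num)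
    (by norm_num) (by norm_num)
  have h2 : ∫⁻ t, G t ∂μ ≤ ∫⁻ t, A t ^ (1 / 2 : ℝ) * B t ^ (1 / 2 : ℝ) ∂μ := by
    refine lintegral_mono fun t => ?_
    rw [← ENNReal.mul_rpow_of_nonneg _ _ (by norm_num)]
    have := ENNReal.rpow_le_rpow (h t) (z := 1 / 2) (by norm_num)
    rwa [← ENNReal.rpow_natCast, ← ENNReal.rpow_mul, Nat.cast_ofNat, mul_one_div_cancel two_ne_zero,
      ENNReal.rpow_one] at this
  have h3 := pow_le_pow_left' (h2.trans h1) 2
  rwa [← ENNReal.mul_rpow_of_nonneg _ _ (by norm_num), ← ENNReal.rpow_natCast _ 2,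
    ← ENNReal.rpow_natCast _ 2, ← ENNReal.rpow_mul, Nat.cast_ofNat, one_div_mul_cancel two_ne_zero,
    ENNReal.rpow_one, ENNReal.rpow_two] at h3

theorem int_a (a : ℝ) (ha : 0 ≤ a) :
    ∫⁻ t in Ioo 0 a, ENNReal.ofReal (√(a - t))⁻¹ = ENNReal.ofReal (2 * √a) := by
  have hi : IntervalIntegrable (fun x : ℝ => x ^ (-(1 / 2) : ℝ)) volume 0 a :=
    intervalIntegral.intervalIntegrable_rpow' (by norm_num)
  have h1 : IntervalIntegrable (fun t : ℝ => (a - t) ^ (-(1 / 2) : ℝ)) volume 0 a := by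
    have := (hi.comp_sub_left a).symm
    simpa using this
  have e : ∀ t ∈ Ioo 0 a, (√(a - t))⁻¹ = (a - t) ^ (-(1 / 2) : ℝ) := fun t ht => by
    rw [Real.sqrt_eq_rpow, Real.rpow_neg (sub_pos.2 ht.2).le]
  rw [setLIntegral_congr_fun measurableSet_Ioo (fun t ht => by rw [e t ht]),
    ← ofReal_integral_eq_lintegral_ofReal
      ((intervalIntegrable_iff_integrableOn_Ioo_of_le ha).1 h1)
      ((ae_restrict_iff' measurableSet_Ioo).2 (Filter.Eventually.of_forall fun t ht =>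
        Real.rpow_nonneg (sub_pos.2 ht.2).le _)),
    ← integral_Ioc_eq_integral_Ioo, ← intervalIntegral.integral_of_le ha,
    intervalIntegral.integral_comp_sub_left (fun x : ℝ => x ^ (-(1 / 2) : ℝ)) a, sub_self, sub_zero,
    integral_rpow (Or.inl (by norm_num)), Real.sqrt_eq_rpow]
  congr 1
  norm_num
  ring

theorem int_u (u : ℝ → ℝ) (T : ℝ) (hu : ∀ t ∈ Icc 0 T, ∀ s ∈ Icc 0 T, t ≤ s → u s + (s - t) ≤ u t) :
    ∫⁻ t in Ioc 0 T, ENNReal.ofReal (√(u t))⁻¹ ≤ ENNReal.ofReal (2 * √(u 0)) := by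
  set S := {t | t ∈ Icc 0 T ∧ 0 < u t} with hS
  rcases S.eq_empty_or_nonempty with h | h
  · rw [setLIntegral_congr_fun measurableSet_Ioc (g := fun _ => 0) fun t ht => ?_]
    · simp
    · have : u t ≤ 0 := by
        by_contra hc
        exact (h ▸ (⟨Ioc_subset_Icc_self ht, not_le.1 hc⟩ : t ∈ S) : t ∈ (∅ : Set ℝ))
      simp [Real.sqrt_eq_zero'.2 this]
  have hb : BddAbove S := ⟨T, fun t ht => ht.1.2⟩
  set a := sSup S with ha
  have h0 : ∀ t ∈ Icc 0 T, t < a → a - t ≤ u t := by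
    intro t ht hta
    have : a ≤ u t + t := csSup_le h fun s hs => by
      rcases le_total t s with h' | h'
      · have := hu t ht s hs.1 h'
        have := hs.2
        linarith
      · obtain ⟨s', hs', hts⟩ := exists_lt_of_lt_csSup h hta
        have := hu t ht s' hs'.1 hts.le
        have := hs'.2
        linarith
    linarith
  obtain ⟨s, hs⟩ := h
  have ha0 : 0 ≤ a := hs.1.1.trans (le_csSup hb hs)
  have hT : (0 : ℝ) ∈ Icc 0 T := ⟨le_rfl, hs.1.1.trans hs.1.2⟩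
  have hau : a ≤ u 0 := by
    rcases ha0.eq_or_lt with h' | h'
    · have := hu 0 hT s hs.1 hs.1.1
      have := hs.2
      have := hs.1.1
      linarith
    · simpa using h0 0 hT h'
  calc ∫⁻ t in Ioc 0 T, ENNReal.ofReal (√(u t))⁻¹
      ≤ ∫⁻ t in Ioc 0 T, (Ioo 0 a).indicator (fun t => ENNReal.ofReal (√(a - t))⁻¹) t := by
        refine lintegral_mono_ae ?_
        filter_upwards [ae_restrict_mem measurableSet_Ioc, ae_restrict_of_ae (compl_mem_ae_iff.2
          (measure_singleton a))] with t ht hta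
        rcases lt_or_gt_of_ne (show t ≠ a from hta) with h' | h'
        · rw [indicator_of_mem (show t ∈ Ioo 0 a from ⟨ht.1, h'⟩)]
          refine ENNReal.ofReal_le_ofReal (inv_anti₀ (Real.sqrt_pos.2 (sub_pos.2 h'))
            (Real.sqrt_le_sqrt (h0 t (Ioc_subset_Icc_self ht) h')))
        · have : u t ≤ 0 := by
            by_contra hc
            exact absurd (le_csSup hb ⟨Ioc_subset_Icc_self ht, not_le.1 hc⟩) (not_le.2 h')
          simp [Real.sqrt_eq_zero'.2 this]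
    _ ≤ ∫⁻ t, (Ioo 0 a).indicator (fun t => ENNReal.ofReal (√(a - t))⁻¹) t :=
        setLIntegral_le_lintegral _ _
    _ = ENNReal.ofReal (2 * √a) := by rw [lintegral_indicator measurableSet_Ioo, int_a a ha0]
    _ ≤ _ := ENNReal.ofReal_le_ofReal (by gcongr)

theorem int_w (b T : ℝ) (hT : 0 ≤ T) :
    ∫⁻ t in Ioc 0 T, ENNReal.ofReal (√b / √(b + t) ^ 3) ≤ 2 := by
  rcases le_or_gt b 0 with hb | hb
  · simp [Real.sqrt_eq_zero'.2 hb]
  have hpos : ∀ t ∈ uIcc 0 T, 0 < b + t := fun t ht => by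
    rw [uIcc_of_le hT] at ht
    linarith [ht.1]
  have hd : ∀ t ∈ uIcc 0 T, HasDerivAt (fun t => -2 * √b * (√(b + t))⁻¹) (√b / √(b + t) ^ 3) t := by
    intro t ht
    have h1 := Real.sqrt_pos.2 (hpos t ht)
    have h2 := ((((hasDerivAt_id t).const_add b).sqrt (hpos t ht).ne').inv h1.ne').const_mul
      (-2 * √b)
    refine h2.congr_deriv ?_
    simp only [id]
    field_simp
  have hc : ContinuousOn (fun t => √b / √(b + t) ^ 3) (uIcc 0 T) := by
    refine continuousOn_const.div (by fun_prop) fun t ht => ?_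
    exact (pow_pos (Real.sqrt_pos.2 (hpos t ht)) 3).ne'
  have hi := hc.intervalIntegrable (μ := volume)
  rw [← ofReal_integral_eq_lintegral_ofReal ((intervalIntegrable_iff_integrableOn_Ioc_of_le hT).1 hi)
      (Filter.Eventually.of_forall fun t => by positivity),
    ← intervalIntegral.integral_of_le hT, intervalIntegral.integral_eq_sub_of_hasDerivAt hd hi,
    ← ENNReal.ofReal_ofNat]
  refine ENNReal.ofReal_le_ofReal ?_
  have h1 := Real.sqrt_pos.2 hb
  have h2 : 0 ≤ √b * (√(b + T))⁻¹ := by positivity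
  rw [add_zero, mul_assoc (-2) √b (√b)⁻¹, mul_inv_cancel₀ h1.ne']
  linarith

theorem hardy {X : Type} [NormedAddCommGroup X] [NormedSpace ℝ X] [MeasurableSpace X]
    [BorelSpace X] [SecondCountableTopology X] (μ : Measure X) [SFinite μ]
    [μ.IsAddRightInvariant] (ρ : X → ℝ) (hρ : Measurable ρ) (v : X) (T : ℝ) (hT : 0 ≤ T)
    (B : Set X) (hB : MeasurableSet B) (hpos : ∀ x ∈ B, 0 < ρ x)
    (hu : ∀ x ∈ B, ∀ t ∈ Icc 0 T, ∀ s ∈ Icc 0 T, t ≤ s → ρ (x - s • v) + (s - t) ≤ ρ (x - t • v))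
    (G : X → ℝ≥0∞) (hG : Measurable G) (h0 : ∀ y, ρ y ≤ 0 → G y = 0) :
    ∫⁻ x in B, (ENNReal.ofReal (ρ x)⁻¹ * ∫⁻ t in Ioc 0 T, G (x - t • v)) ^ 2 ∂μ
      ≤ 4 * ∫⁻ y, G y ^ 2 ∂μ := by
  let H : X → ℝ → ℝ≥0∞ := fun y t => 2 * G y ^ 2 * ENNReal.ofReal (√(ρ y) / √(ρ y + t) ^ 3)
  have hH : Measurable (Function.uncurry H) := by
    unfold H Function.uncurry
    fun_prop
  have hH' : Measurable (Function.uncurry fun x t => H (x - t • v) t) := by
    unfold H Function.uncurry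
    fun_prop
  have key : ∀ x ∈ B, (ENNReal.ofReal (ρ x)⁻¹ * ∫⁻ t in Ioc 0 T, G (x - t • v)) ^ 2
      ≤ ∫⁻ t in Ioc 0 T, H (x - t • v) t := by
    intro x hx
    have hx0 := hpos x hx
    have h1 := cs (volume.restrict (Ioc 0 T)) (fun t => ENNReal.ofReal (√(ρ (x - t • v)))⁻¹)
      (fun t => ENNReal.ofReal √(ρ (x - t • v)) * G (x - t • v) ^ 2) (fun t => G (x - t • v))
      (by fun_prop) (by fun_prop) (fun t => by
        rcases le_or_gt (ρ (x - t • v)) 0 with h | h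
        · simp [h0 _ h]
        · rw [← mul_assoc, ← ENNReal.ofReal_mul (by positivity),
            inv_mul_cancel₀ (Real.sqrt_pos.2 h).ne', ENNReal.ofReal_one, one_mul])
    have h2 := int_u (fun t => ρ (x - t • v)) T (hu x hx)
    simp only [zero_smul, sub_zero] at h2
    rw [mul_pow]
    refine (mul_le_mul_right (h1.trans (mul_le_mul_left h2 _)) _).trans ?_
    rw [← mul_assoc, ← lintegral_const_mul' _ _ (by finiteness)]
    refine setLIntegral_mono' measurableSet_Ioc fun t ht => ?_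
    rcases le_or_gt (ρ (x - t • v)) 0 with h | h
    · simp [h0 _ h]
    have h3 := hu x hx 0 ⟨le_rfl, hT⟩ t (Ioc_subset_Icc_self ht) ht.1.le
    simp only [zero_smul, sub_zero] at h3
    have h4 : ENNReal.ofReal (ρ x)⁻¹ ^ 2 * ENNReal.ofReal (2 * √(ρ x)) *
        ENNReal.ofReal √(ρ (x - t • v)) ≤
        2 * ENNReal.ofReal (√(ρ (x - t • v)) / √(ρ (x - t • v) + t) ^ 3) := by
      rw [← ENNReal.ofReal_pow (by positivity), ← ENNReal.ofReal_mul (by positivity),
        ← ENNReal.ofReal_mul (by positivity), ← ENNReal.ofReal_ofNat,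
        ← ENNReal.ofReal_mul (by positivity)]
      refine ENNReal.ofReal_le_ofReal ?_
      have h5 := Real.sqrt_pos.2 hx0
      have h6 : 0 < √(ρ (x - t • v) + t) := Real.sqrt_pos.2 (by linarith [ht.1])
      have h7 : (ρ x)⁻¹ ^ 2 * (2 * √(ρ x)) * √(ρ (x - t • v))
          = 2 * (√(ρ (x - t • v)) / √(ρ x) ^ 3) := by
        have := Real.sq_sqrt hx0.le
        set w := √(ρ x)
        rw [← this]
        field_simp
      rw [h7]
      gcongr
    calc _ = (ENNReal.ofReal (ρ x)⁻¹ ^ 2 * ENNReal.ofReal (2 * √(ρ x)) *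
          ENNReal.ofReal √(ρ (x - t • v))) * G (x - t • v) ^ 2 := by ring
      _ ≤ _ := mul_le_mul_left h4 _
      _ = _ := by ring
  calc _ ≤ ∫⁻ x in B, (∫⁻ t in Ioc 0 T, H (x - t • v) t) ∂μ := setLIntegral_mono' hB key
    _ ≤ ∫⁻ x, (∫⁻ t in Ioc 0 T, H (x - t • v) t) ∂μ := setLIntegral_le_lintegral _ _
    _ = ∫⁻ t in Ioc 0 T, ∫⁻ x, H (x - t • v) t ∂μ := lintegral_lintegral_swap hH'.aemeasurable
    _ = ∫⁻ t in Ioc 0 T, ∫⁻ y, H y t ∂μ :=
        lintegral_congr fun t => lintegral_sub_right_eq_self (fun y => H y t) _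
    _ = ∫⁻ y, (∫⁻ t in Ioc 0 T, H y t) ∂μ := (lintegral_lintegral_swap hH.aemeasurable).symm
    _ ≤ ∫⁻ y, 4 * G y ^ 2 ∂μ := by
        refine lintegral_mono fun y => ?_
        simp only [H]
        rw [lintegral_const_mul _ (by fun_prop)]
        refine (mul_le_mul_right (int_w (ρ y) T hT) _).trans (le_of_eq ?_)
        ring
    _ = _ := lintegral_const_mul _ (by fun_prop)

end Pool.Agent.MP_fcd29e_an.H59
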