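import Pool.Agent.MP_fcd29e_an.H81.Spec
import Pool.Agent.MP_fcd29e_an.H59.Hardy

/-! Row HAR: Hardy's inequality at the boundary. -/

set_option autoImplicit false

open Pool.Agent.MP_fcd29e_an.H81 MeasureTheory Complex Set Filter Topology Metric
open scoped ContDiff ComplexConjugate ENNReal NNReal

namespace Pool.Agent.MP_fcd29e_an.H59

variable {N : ℕ}

theorem shift_int {g : E N → ℂ} (hm : StronglyMeasurable g) (hg : Integrable g) (v : E N) (T : ℝ) :
    Integrable (fun q : E N × ℝ => g (q.1 - q.2 • v))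
      (volume.prod (volume.restrict (Ioc 0 T))) := by
  have h1 : StronglyMeasurable fun q : E N × ℝ => g (q.1 - q.2 • v) :=
    hm.comp_measurable (by fun_prop)
  rw [integrable_prod_iff' h1.aestronglyMeasurable]
  refine ⟨Eventually.of_forall fun t => hg.comp_sub_right (t • v), ?_⟩
  simp only [integral_sub_right_eq_self (fun x => ‖g x‖)]
  exact integrable_const _

/-- The function is the integral of its weak derivative along segments. -/
theorem repr_weak {f g f₁ g₁ : E N → ℂ} {v : E N} {T : ℝ} (hT : 0 ≤ T) {B D : Set (E N)}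
    (hD : IsCompact D) (hD0 : D ⊆ E0 N) (hBD : ∀ x ∈ B, ∀ t ∈ Icc 0 T, x - t • v ∈ D)
    (hW : WD (E0 N) v f g) (hf₁ : Integrable f₁) (hm : StronglyMeasurable g₁)
    (hg₁ : Integrable g₁) (hff : ∀ᵐ y, y ∈ D → f₁ y = f y) (hgg : ∀ᵐ y, y ∈ D → g₁ y = g y)
    (hz : ∀ᵐ y, y + T • v ∈ B → f₁ y = 0) (ψ : E N → ℂ) (hψ : Test B ψ) :
    ∫ x, (∫ t in Ioc 0 T, g₁ (x - t • v)) * ψ x = ∫ x, f₁ x * ψ x := by
  obtain ⟨C, hC⟩ := hψ.1.continuous.bounded_above_of_compact_support hψ.2.1
  have hdc : Continuous fun y => fderiv ℝ ψ y v :=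
    (hψ.1.continuous_fderiv (by simp)).clm_apply continuous_const
  obtain ⟨C', hC'⟩ := hdc.bounded_above_of_compact_support (hψ.2.1.fderiv_apply ℝ v)
  have hout : ∀ t ∈ Icc 0 T, ∀ y, y ∉ D → y + t • v ∉ tsupport ψ := fun t ht y hy h =>
    hy (by simpa using hBD _ (hψ.2.2 h) t ht)
  have hJ : Integrable (Function.uncurry fun (x : E N) (t : ℝ) => g₁ (x - t • v) * ψ x)
      (volume.prod (volume.restrict (Ioc 0 T))) :=
    (shift_int hm hg₁ v T).mul_bdd (c := C)
      (hψ.1.continuous.comp continuous_fst).aestronglyMeasurable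
      (Eventually.of_forall fun q => hC _)
  have hJ' : Integrable (Function.uncurry fun (y : E N) (t : ℝ) => f₁ y * fderiv ℝ ψ (y + t • v) v)
      (volume.prod (volume.restrict (Ioc 0 T))) :=
    (hf₁.comp_fst _).mul_bdd (c := C')
      (hdc.comp (by fun_prop : Continuous fun q : E N × ℝ => q.1 + q.2 • v)).aestronglyMeasurable
      (Eventually.of_forall fun q => hC' _)
  have hstep : ∀ t ∈ Ioc 0 T,
      ∫ x, g₁ (x - t • v) * ψ x = -∫ y, f₁ y * fderiv ℝ ψ (y + t • v) v := by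
    intro t ht
    have ht' := Ioc_subset_Icc_self ht
    have hsupp : Function.support (fun y => ψ (y + t • v)) ⊆ D := fun y hy => by
      by_contra h
      exact hy (image_eq_zero_of_notMem_tsupport (hout t ht' y h))
    have htest : Test (E0 N) fun y => ψ (y + t • v) :=
      ⟨hψ.1.comp (contDiff_id.add contDiff_const),
        HasCompactSupport.intro hD fun y hy => by_contra fun h => hy (hsupp h),
        (closure_minimal hsupp hD.isClosed).trans hD0⟩
    have h1 := hW _ htest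
    simp only [fderiv_comp_add_right] at h1
    have h2 : ∫ y in E0 N, g y * ψ (y + t • v) = ∫ y, g₁ y * ψ (y + t • v) := by
      rw [setIntegral_eq_integral_of_forall_compl_eq_zero fun y hy => by
        rw [image_eq_zero_of_notMem_tsupport (hout t ht' y fun h => hy (hD0 h)), mul_zero]]
      refine integral_congr_ae (hgg.mono fun y hy => ?_)
      by_cases h : y ∈ D
      · simp only [hy h]
      · simp only [image_eq_zero_of_notMem_tsupport (hout t ht' y h), mul_zero]
    have hd0 : ∀ y, y ∉ D → fderiv ℝ ψ (y + t • v) v = 0 := fun y h => by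
      rw [image_eq_zero_of_notMem_tsupport fun h' => hout t ht' y h (tsupport_fderiv_subset ℝ h')]
      rfl
    have h3 : ∫ y in E0 N, f y * fderiv ℝ ψ (y + t • v) v
        = ∫ y, f₁ y * fderiv ℝ ψ (y + t • v) v := by
      rw [setIntegral_eq_integral_of_forall_compl_eq_zero fun y hy => by
        rw [hd0 y fun h => hy (hD0 h), mul_zero]]
      refine integral_congr_ae (hff.mono fun y hy => ?_)
      by_cases h : y ∈ D
      · simp only [hy h]
      · simp only [hd0 y h, mul_zero]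
    rw [← h3, h1, h2, neg_neg, ← integral_add_right_eq_self _ (t • v)]
    simp only [add_sub_cancel_right]
  have hftc : ∀ y, ∫ t in Ioc 0 T, fderiv ℝ ψ (y + t • v) v = ψ (y + T • v) - ψ y := by
    intro y
    rw [← intervalIntegral.integral_of_le hT, intervalIntegral.integral_eq_sub_of_hasDerivAt
      (f := fun t : ℝ => ψ (y + t • v)) (f' := fun t : ℝ => fderiv ℝ ψ (y + t • v) v)
      (fun t _ => ?_)
      ((hdc.comp (by fun_prop : Continuous fun t : ℝ => y + t • v)).intervalIntegrable _ _)]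
    · simp
    · have h1 : HasDerivAt (fun t : ℝ => y + t • v) v t := by
        simpa using ((hasDerivAt_id t).smul_const v).const_add y
      exact (hψ.1.differentiable (by simp) _).hasFDerivAt.comp_hasDerivAt t h1
  calc ∫ x, (∫ t in Ioc 0 T, g₁ (x - t • v)) * ψ x
      = ∫ x, ∫ t in Ioc 0 T, g₁ (x - t • v) * ψ x := by simp only [integral_mul_const]
    _ = ∫ t in Ioc 0 T, ∫ x, g₁ (x - t • v) * ψ x := integral_integral_swap hJ
    _ = ∫ t in Ioc 0 T, -∫ y, f₁ y * fderiv ℝ ψ (y + t • v) v :=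
        setIntegral_congr_fun measurableSet_Ioc hstep
    _ = -∫ y, ∫ t in Ioc 0 T, f₁ y * fderiv ℝ ψ (y + t • v) v := by
        rw [integral_neg, integral_integral_swap hJ']
    _ = ∫ x, f₁ x * ψ x := by
        rw [← integral_neg]
        refine integral_congr_ae (hz.mono fun y hy => ?_)
        simp only [integral_const_mul, hftc]
        by_cases h : y + T • v ∈ B
        · simp [hy h]
        · rw [image_eq_zero_of_notMem_tsupport fun h' => h (hψ.2.2 h')]
          ring

theorem har_local (L : Lv0) {ρ : E N → ℝ} (hρ : Dom ρ) (k : ℕ) {f : E N → ℂ} (hf : L2 (E0 N) f)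
    (hz : ∀ᵐ z, z ∈ Om ρ → f z = 0) (hg : ∀ v, ∃ g, WD (E0 N) v f g ∧ WL ρ k g) {p : E N}
    (hp : p ≠ 0) (hp0 : ρ p = 0) :
    ∃ B ∈ 𝓝 p, ∫⁻ z in Op ρ ∩ B, ‖f z / (ρ z : ℂ) ^ (k + 1)‖ₑ ^ 2 < ⊤ := by
  obtain ⟨-, hOp, -, -, hmeas, -, -, -, hdir, -, -, hWL⟩ := L.c1 N ρ hρ
  obtain ⟨v, r, hr, hrp, hv⟩ := hdir p hp hp0
  obtain ⟨g, hW, hg⟩ := hg v
  set D := closedBall p r with hD
  have hDc : IsCompact D := isCompact_closedBall p r
  have hD0 : D ⊆ E0 N := fun y hy h => by
    rw [mem_singleton_iff.1 h, hD, mem_closedBall, dist_zero_left] at hy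
    linarith
  set T := r / (2 * (‖v‖ + 1)) with hTdef
  have hT : 0 < T := by positivity
  have hTv : T * ‖v‖ ≤ r / 2 := by
    rw [hTdef, div_mul_eq_mul_div, div_le_div_iff₀ (by positivity) (by positivity)]
    nlinarith [norm_nonneg v]
  have hdiff : ∀ y ∈ D, DifferentiableAt ℝ ρ y := fun y hy =>
    (hρ.smooth.contDiffAt (isOpen_E0.mem_nhds (hD0 hy))).differentiableAt (by simp)
  have hev : ∀ᶠ x in 𝓝 p, ρ x < T ∧ x ∈ ball p (r / 2) :=
    (((hdiff p (mem_closedBall_self hr.le)).continuousAt.eventually_lt continuousAt_const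
      (by rw [hp0]; exact hT))).and (ball_mem_nhds p (by positivity))
  obtain ⟨B, hB, hBo, hpB⟩ := _root_.mem_nhds_iff.1 hev
  have hBD : ∀ x ∈ B, ∀ t ∈ Icc 0 T, x - t • v ∈ D := by
    intro x hx t ht
    have h1 := mem_ball_iff_norm.1 (hB hx).2
    rw [hD, mem_closedBall_iff_norm, sub_right_comm]
    refine (norm_sub_le _ _).trans ?_
    rw [norm_smul, Real.norm_of_nonneg ht.1]
    nlinarith [norm_nonneg v, ht.2]
  have hBD' : B ⊆ D := fun x hx => by simpa using hBD x hx 0 ⟨le_rfl, hT.le⟩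
  have hu : ∀ x ∈ B, ∀ t ∈ Icc 0 T, ∀ s ∈ Icc 0 T, t ≤ s →
      ρ (x - s • v) + (s - t) ≤ ρ (x - t • v) := by
    intro x hx t ht s hs hts
    have hd : ∀ t ∈ Icc 0 T, HasDerivAt (fun t : ℝ => ρ (x - t • v))
        (fderiv ℝ ρ (x - t • v) (-v)) t := fun t ht => by
      have h1 : HasDerivAt (fun t : ℝ => x - t • v) (-v) t := by
        simpa using ((hasDerivAt_id t).smul_const v).const_sub x
      exact (hdiff _ (hBD x hx t ht)).hasFDerivAt.comp_hasDerivAt t h1
    have := (convex_Icc 0 T).image_sub_le_mul_sub_of_deriv_le (f := fun t : ℝ => ρ (x - t • v))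
      (C := -1) (fun t ht => (hd t ht).continuousAt.continuousWithinAt)
      (fun t ht => (hd t (interior_subset ht)).differentiableAt.differentiableWithinAt)
      (fun t ht => by
        rw [(hd t (interior_subset ht)).deriv, map_neg, neg_le_neg_iff]
        exact hv _ (hBD x hx t (interior_subset ht))) t ht s hs hts
    linarith
  have T0 := L.t1 N (E0 N) isOpen_E0 (by simp)
  have hint : ∀ h : E N → ℂ, L2 (E0 N) h → IntegrableOn h D := fun h hh =>
    (T0.1 h hh).1.integrableOn_compact_subset hD0 hDc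
  have hDm : MeasurableSet D := hDc.measurableSet
  have hOD : MeasurableSet (Op ρ ∩ D) := hOp.measurableSet.inter hDm
  set g₁ := (Op ρ ∩ D).indicator (hg.1.mk g) with hg₁
  have hm : StronglyMeasurable g₁ := hg.1.stronglyMeasurable_mk.indicator hOD
  have hge : g₁ =ᵐ[volume] (Op ρ ∩ D).indicator g := hg.1.ae_eq_mk.symm.mono fun y hy => by
    simp only [hg₁, indicator, hy]
  have hg₁i : Integrable g₁ :=
    (((hint g (hWL k g hg)).mono_set inter_subset_right).integrable_indicator hOD).congr hge.symm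
  have hgg : ∀ᵐ y, y ∈ D → g₁ y = g y := by
    filter_upwards [hge, hg.2.1] with y h1 h2 hy
    rw [h1]
    rcases le_or_gt (ρ y) 0 with h | h
    · rw [h2 h, indicator_of_notMem fun h' => absurd h'.1.2 (not_lt.2 h)]
    · exact indicator_of_mem (show y ∈ Op ρ ∩ D from ⟨⟨hD0 hy, h⟩, hy⟩) _
  have hf₁ : Integrable (D.indicator f) := (hint f hf).integrable_indicator hDm
  have hF : Integrable fun x => ∫ t in Ioc 0 T, g₁ (x - t • v) :=
    (shift_int hm hg₁i v T).integral_prod_left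
  have hrep : ∀ᵐ x, x ∈ B → (∫ t in Ioc 0 T, g₁ (x - t • v)) - D.indicator f x = 0 := by
    refine (L.t1 N B hBo fun h => hD0 (hBD' h) rfl).2.2.2.2.1 _
      ((hF.sub hf₁).locallyIntegrable.locallyIntegrableOn B) fun ψ hψ => ?_
    obtain ⟨C, hC⟩ := hψ.1.continuous.bounded_above_of_compact_support hψ.2.1
    rw [setIntegral_eq_integral_of_forall_compl_eq_zero fun y hy => by
      rw [image_eq_zero_of_notMem_tsupport fun h => hy (hψ.2.2 h), mul_zero]]
    simp only [sub_mul]
    rw [integral_sub (hF.mul_bdd hψ.1.continuous.aestronglyMeasurable (Eventually.of_forall hC))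
      (hf₁.mul_bdd hψ.1.continuous.aestronglyMeasurable (Eventually.of_forall hC)), sub_eq_zero]
    refine repr_weak hT.le hDc hD0 hBD hW hf₁ hm hg₁i
      (Eventually.of_forall fun y hy => indicator_of_mem hy _) hgg (hz.mono fun y hy h => ?_) ψ hψ
    have h1 := hBD _ h T ⟨hT.le, le_rfl⟩
    have h2 := hu _ h 0 ⟨le_rfl, hT.le⟩ T ⟨hT.le, le_rfl⟩ hT.le
    have h3 := (hB h).1
    simp only [add_sub_cancel_right, zero_smul, sub_zero] at h1 h2
    rw [indicator_of_mem h1]
    exact hy ⟨hD0 h1, by linarith⟩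
  let G : E N → ℝ≥0∞ := fun y => ‖g₁ y / (ρ y : ℂ) ^ k‖ₑ
  have hG : Measurable G := (hm.measurable.div (by fun_prop)).enorm
  have hG0 : ∀ y, ρ y ≤ 0 → g₁ y = 0 := fun y h =>
    indicator_of_notMem (fun h' => absurd h'.1.2 (not_lt.2 h)) _
  have hGfin : ∫⁻ y, G y ^ 2 < ⊤ := by
    have h1 := (hg.2.2 D hDc fun h => hD0 h rfl).2
    rw [eLpNorm_lt_top_iff_lintegral_rpow_enorm_lt_top two_ne_zero ENNReal.ofNat_ne_top,
      ← lintegral_indicator hOD] at h1
    refine lt_of_eq_of_lt (lintegral_congr_ae (hge.mono fun y hy => ?_)) h1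
    simp only [G, hy]
    by_cases h : y ∈ Op ρ ∩ D
    · simp [indicator_of_mem h]
    · simp [indicator_of_notMem h]
  have hOB : MeasurableSet (Op ρ ∩ B) := (hOp.inter hBo).measurableSet
  refine ⟨B, hBo.mem_nhds hpB, lt_of_le_of_lt ?_ (lt_of_le_of_lt
    (hardy volume ρ hmeas v T hT.le (Op ρ ∩ B) hOB (fun x hx => hx.1.2) (fun x hx => hu x hx.2) G hG
      fun y h => by simp [G, hG0 y h]) (ENNReal.mul_lt_top (by simp) hGfin))⟩
  refine lintegral_mono_ae ?_
  filter_upwards [ae_restrict_mem hOB, ae_restrict_of_ae hrep] with x hx h1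
  have hx0 : 0 < ρ x := hx.1.2
  have h2 := h1 hx.2
  rw [sub_eq_zero, indicator_of_mem (hBD' hx.2)] at h2
  refine pow_le_pow_left' ?_ 2
  have e : f x / (ρ x : ℂ) ^ (k + 1)
      = (((ρ x)⁻¹ : ℝ) : ℂ) * ∫ t in Ioc 0 T, g₁ (x - t • v) / (ρ x : ℂ) ^ k := by
    rw [integral_div, h2, pow_succ, ofReal_inv]
    have : (ρ x : ℂ) ≠ 0 := ofReal_ne_zero.2 hx0.ne'
    field_simp
  rw [e, enorm_mul, ← ofReal_norm, norm_real, Real.norm_of_nonneg (by positivity)]
  refine mul_le_mul_right ((enorm_integral_le_lintegral_enorm _).trans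
    (setLIntegral_mono' measurableSet_Ioc fun t ht => ?_)) _
  rcases le_or_gt (ρ (x - t • v)) 0 with h | h
  · simp [hG0 _ h]
  have h3 := hu x hx.2 0 ⟨le_rfl, hT.le⟩ t (Ioc_subset_Icc_self ht) ht.1.le
  simp only [zero_smul, sub_zero] at h3
  simp only [G, ← ofReal_norm, norm_div, norm_pow, norm_real, Real.norm_of_nonneg h.le,
    Real.norm_of_nonneg hx0.le]
  refine ENNReal.ofReal_le_ofReal ?_
  have h4 : ρ (x - t • v) ≤ ρ x := by linarith [ht.1]
  gcongr

theorem har (L : Lv0) : StmtHAR := by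
  intro N ρ hρ k
  obtain ⟨hOm, hOp, -, -, hmeas, -⟩ := L.c1 N ρ hρ
  have T0 := L.t1 N (E0 N) isOpen_E0 (by simp)
  have hnt : Nontrivial (E N) := by
    obtain ⟨z, hz, -⟩ := hρ.proper
    exact ⟨z, 0, hz⟩
  have hE : ∀ᵐ z : E N, z ∈ E0 N := compl_mem_ae_iff.2 (measure_singleton 0)
  have base : ∀ f : E N → ℂ, L2 (E0 N) f → (∀ᵐ z, z ∈ Om ρ → f z = 0) →
      AEStronglyMeasurable f volume ∧ ∀ᵐ z, ρ z ≤ 0 → f z = 0 := by
    intro f hf hz
    constructor
    · have := (T0.1 f hf).2.1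
      rwa [Measure.restrict_eq_self_of_ae_mem hE] at this
    · filter_upwards [hz, hE, (L.c2 N ρ hρ).1] with z h1 h2 h3 h4
      exact h1 ⟨h2, lt_of_le_of_ne h4 h3⟩
  induction k with
  | zero =>
    intro f hf hz
    refine ⟨(base f hf hz).1, (base f hf hz).2, ?_⟩
    simpa using (T0.1 f hf).2.2.2.2.2.2 (Op ρ) fun z hz => hz.1
  | succ k ih =>
    intro f hf hz
    refine ⟨(base f hf.1 hz).1, (base f hf.1 hz).2, fun K hK hK0 => ?_⟩
    have hg : ∀ v, ∃ g, WD (E0 N) v f g ∧ WL ρ k g := by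
      intro v
      obtain ⟨g, hW, hg⟩ := hf.2 v
      refine ⟨g, hW, ih g hg ?_⟩
      have hg2 := (((L.sb N).1 _ isOpen_E0 (by simp) k).1 g hg).1
      refine (L.t1 N (Om ρ) hOm fun h => h.1 rfl).2.2.2.2.1 g
        ((T0.1 g hg2).1.mono_set fun z hz => hz.1) fun ψ hψ => ?_
      have h1 := T0.2.2.2.2.2.2.2.2.2.2.1 v f g (Om ρ) hOm (fun z hz => hz.1) hW ψ hψ
      rw [← neg_eq_zero, ← h1]
      refine integral_eq_zero_of_ae ?_
      filter_upwards [ae_restrict_mem hOm.measurableSet, ae_restrict_of_ae hz] with z h2 h3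
      simp [h3 h2]
    have hms : AEStronglyMeasurable (fun z => f z / (ρ z : ℂ) ^ (k + 1)) volume :=
      ((base f hf.1 hz).1.aemeasurable.div (by fun_prop)).aestronglyMeasurable
    refine ⟨hms.restrict, ?_⟩
    rw [eLpNorm_lt_top_iff_lintegral_rpow_enorm_lt_top two_ne_zero ENNReal.ofNat_ne_top]
    simp only [ENNReal.toReal_ofNat, ENNReal.rpow_ofNat]
    refine hK.induction_on (p := fun S => ∫⁻ z in Op ρ ∩ S, ‖f z / (ρ z : ℂ) ^ (k + 1)‖ₑ ^ 2 < ⊤)
      (by simp) (fun S S' h h' => lt_of_le_of_lt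
        (lintegral_mono_set (inter_subset_inter_right _ h)) h')
      (fun S S' h h' => by
        rw [inter_union_distrib_left]
        exact lt_of_le_of_lt (lintegral_union_le _ _ _) (ENNReal.add_lt_top.2 ⟨h, h'⟩))
      fun p hp => ?_
    have hp0 : p ≠ 0 := fun h => hK0 (h ▸ hp)
    have hc : ContinuousAt ρ p := (hρ.smooth.contDiffAt (isOpen_E0.mem_nhds hp0)).continuousAt
    rcases lt_trichotomy (ρ p) 0 with h | h | h
    · refine ⟨Om ρ, mem_nhdsWithin_of_mem_nhds (hOm.mem_nhds ⟨hp0, h⟩), ?_⟩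
      have : Op ρ ∩ Om ρ = ∅ := eq_empty_of_forall_notMem fun z hz => lt_asymm hz.1.2 hz.2.2
      simp [this]
    · obtain ⟨B, hB, h'⟩ := har_local L hρ k hf.1 hz hg hp0 h
      exact ⟨B, mem_nhdsWithin_of_mem_nhds hB, h'⟩
    · have hev : ∀ᶠ z in 𝓝 p, ρ p / 2 < ρ z ∧ z ∈ E0 N :=
        (continuousAt_const.eventually_lt hc (by linarith)).and (isOpen_E0.mem_nhds hp0)
      obtain ⟨D, hD, hDs, hDc⟩ := local_compact_nhds hev
      refine ⟨D, mem_nhdsWithin_of_mem_nhds hD, ?_⟩
      have h1 := (hf.1 D hDc fun h => (hDs h).2 rfl).2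
      rw [eLpNorm_lt_top_iff_lintegral_rpow_enorm_lt_top two_ne_zero ENNReal.ofNat_ne_top] at h1
      simp only [ENNReal.toReal_ofNat, ENNReal.rpow_ofNat] at h1
      refine lt_of_le_of_lt ((lintegral_mono_set (inter_subset_inter_left D
        (show Op ρ ⊆ E0 N from fun z hz => hz.1))).trans (setLIntegral_mono'
          (isOpen_E0.measurableSet.inter hDc.measurableSet)
          (g := fun z => ENNReal.ofReal ((ρ p / 2) ^ (k + 1))⁻¹ ^ 2 * ‖f z‖ₑ ^ 2) fun z hz => ?_)) ?_
      · rw [← mul_pow]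
        refine pow_le_pow_left' ?_ 2
        have h2 := (hDs hz.2).1
        have h3 : 0 < ρ z := by linarith
        rw [← ofReal_norm, ← ofReal_norm, ← ENNReal.ofReal_mul (by positivity),
          norm_div, norm_pow, norm_real, Real.norm_of_nonneg h3.le, inv_mul_eq_div]
        refine ENNReal.ofReal_le_ofReal ?_
        gcongr
      · rw [lintegral_const_mul' _ _ (by finiteness)]
        exact ENNReal.mul_lt_top (by finiteness) h1

end Pool.Agent.MP_fcd29e_an.H59
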