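import Pool.Agent.MP_fcd29e_an.H81.Spec2

/-! Row NUL: the inequality on the null set. -/

set_option autoImplicit false

open Pool.Agent.MP_fcd29e_an.H81 MeasureTheory Complex Set Filter Topology Metric
open scoped ContDiff ComplexConjugate ENNReal NNReal

namespace Pool.Agent.MP_fcd29e_an.H59

variable {N : ℕ}

/-- Holomorphic derivative along a constant vector. -/
noncomputable def Dv (l : Fin N → ℂ) (g : E N → ℂ) (z : E N) : ℂ := ∑ j, l j * dz j g z

/-- Antiholomorphic derivative along a constant vector. -/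
noncomputable def Db (l : Fin N → ℂ) (g : E N → ℂ) (z : E N) : ℂ := ∑ j, conj (l j) * dzb j g z

section
variable (l : Fin N → ℂ) {f g : E N → ℂ} {z : E N}

theorem Dv_smooth (hg : ContDiffAt ℝ ∞ g z) : ContDiffAt ℝ ∞ (Dv l g) z :=
  ContDiffAt.sum fun j _ => contDiffAt_const.mul (contDiffAt_dz j hg)

theorem Db_smooth (hg : ContDiffAt ℝ ∞ g z) : ContDiffAt ℝ ∞ (Db l g) z :=
  ContDiffAt.sum fun j _ => contDiffAt_const.mul (contDiffAt_dzb j hg)

theorem Dv_mul (hf : ContDiffAt ℝ ∞ f z) (hg : ContDiffAt ℝ ∞ g z) :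
    Dv l (fun w => f w * g w) z = Dv l f z * g z + f z * Dv l g z := by
  simp only [Dv, fun j => dz_mul j (ContDiffAt.da hf) (ContDiffAt.da hg), Finset.sum_mul,
    Finset.mul_sum, ← Finset.sum_add_distrib]
  exact Finset.sum_congr rfl fun _ _ => by ring

theorem Db_mul (hf : ContDiffAt ℝ ∞ f z) (hg : ContDiffAt ℝ ∞ g z) :
    Db l (fun w => f w * g w) z = Db l f z * g z + f z * Db l g z := by
  simp only [Db, fun j => dzb_mul j (ContDiffAt.da hf) (ContDiffAt.da hg), Finset.sum_mul,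
    Finset.mul_sum, ← Finset.sum_add_distrib]
  exact Finset.sum_congr rfl fun _ _ => by ring

theorem Dv_add (hf : ContDiffAt ℝ ∞ f z) (hg : ContDiffAt ℝ ∞ g z) :
    Dv l (fun w => f w + g w) z = Dv l f z + Dv l g z := by
  simp only [Dv, fun j => dz_add j (ContDiffAt.da hf) (ContDiffAt.da hg), mul_add,
    Finset.sum_add_distrib]

theorem Dv_sub (hf : ContDiffAt ℝ ∞ f z) (hg : ContDiffAt ℝ ∞ g z) :
    Dv l (fun w => f w - g w) z = Dv l f z - Dv l g z := by
  simp only [Dv, fun j => dz_sub j (ContDiffAt.da hf) (ContDiffAt.da hg), mul_sub,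
    Finset.sum_sub_distrib]

theorem Dv_sum {F : Fin N → E N → ℂ} (h : ∀ i, ContDiffAt ℝ ∞ (F i) z) :
    Dv l (fun w => ∑ i, F i w) z = ∑ i, Dv l (F i) z := by
  simp only [Dv, fun j => dz_sum j Finset.univ fun i _ => ContDiffAt.da (h i), Finset.mul_sum]
  exact Finset.sum_comm

theorem Db_sum {F : Fin N → E N → ℂ} (h : ∀ i, ContDiffAt ℝ ∞ (F i) z) :
    Db l (fun w => ∑ i, F i w) z = ∑ i, Db l (F i) z := by
  simp only [Db, fun j => dzb_sum j Finset.univ fun i _ => ContDiffAt.da (h i), Finset.mul_sum]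
  exact Finset.sum_comm

theorem Dv_conj (g : E N → ℂ) (z : E N) : Dv l (fun w => conj (g w)) z = conj (Db l g z) := by
  simp only [Dv, Db, dz_conj, map_sum, map_mul, conj_conj]

theorem Db_conj (g : E N → ℂ) (z : E N) : Db l (fun w => conj (g w)) z = conj (Dv l g z) := by
  simp only [Dv, Db, dzb_conj, map_sum, map_mul]

theorem Dv_congr (h : f =ᶠ[𝓝 z] g) : Dv l f z = Dv l g z := by
  simp only [Dv, dz_congr h]

theorem Dv_Db (hg : ContDiffAt ℝ ∞ g z) : Dv l (Db l g) z = hess g z l := by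
  have : ∀ j, dz j (Db l g) z = ∑ k, conj (l k) * dz j (dzb k g) z := fun j => by
    rw [show Db l g = fun w => ∑ k, conj (l k) * dzb k g w from rfl,
      dz_sum j _ fun k _ => (ContDiffAt.da (contDiffAt_dzb k hg)).const_mul _]
    exact Finset.sum_congr rfl fun k _ => dz_const_mul j _ (ContDiffAt.da (contDiffAt_dzb k hg))
  simp only [Dv, this, hess, Finset.mul_sum]
  exact Finset.sum_congr rfl fun _ _ => Finset.sum_congr rfl fun _ _ => by ring

theorem Db_Dv (hg : ContDiffAt ℝ ∞ g z) : Db l (Dv l g) z = hess g z l := by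
  have : ∀ k, dzb k (Dv l g) z = ∑ j, l j * dz j (dzb k g) z := fun k => by
    rw [show Dv l g = fun w => ∑ j, l j * dz j g w from rfl,
      dzb_sum k _ fun j _ => (ContDiffAt.da (contDiffAt_dz j hg)).const_mul _]
    exact Finset.sum_congr rfl fun j _ => by
      rw [dzb_const_mul k _ (ContDiffAt.da (contDiffAt_dz j hg)), dz_dzb_comm j k hg]
  simp only [Db, this, hess, Finset.mul_sum]
  rw [Finset.sum_comm]
  exact Finset.sum_congr rfl fun _ _ => Finset.sum_congr rfl fun _ _ => by ring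

end

theorem log_hess (l : Fin N → ℂ) {a : Fin N → E N → ℂ} {p : E N}
    (ha : ∀ᶠ z in 𝓝 p, ∀ j, ContDiffAt ℝ ∞ (a j) z) {A b : ℂ} {S : ℝ} (hS : 0 < S)
    (hSa : S = ∑ j, ‖a j p‖ ^ 2) (h1 : ∀ j, Db l (a j) p = A * a j p)
    (h2 : ∀ j, hess (a j) p l = b * a j p + A * Dv l (a j) p) :
    2 * b.re ≤ S⁻¹ * (hess (fun z => ∑ j, a j z * conj (a j z)) p l).re +
      -(S ^ 2)⁻¹ * ‖Dv l (fun z => ∑ j, a j z * conj (a j z)) p‖ ^ 2 := by
  have hp := ha.self_of_nhds
  have hSc : ∑ j, a j p * conj (a j p) = S := by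
    simp only [hSa, ofReal_sum, ofReal_pow, mul_conj']
  set t := ∑ j, Dv l (a j) p * conj (a j p) with ht
  set U := ∑ j, ‖Dv l (a j) p‖ ^ 2 with hU
  have hUc : ∑ j, Dv l (a j) p * conj (Dv l (a j) p) = U := by
    simp only [hU, ofReal_sum, ofReal_pow, mul_conj']
  have e1 : Dv l (fun z => ∑ j, a j z * conj (a j z)) p = t + conj A * S := by
    rw [Dv_sum l fun j => (hp j).mul (contDiffAt_conj (hp j)), ← hSc, ht, Finset.mul_sum,
      ← Finset.sum_add_distrib]
    refine Finset.sum_congr rfl fun j _ => ?_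
    rw [Dv_mul l (hp j) (contDiffAt_conj (hp j)), Dv_conj, h1, map_mul]
    ring
  have e2 : hess (fun z => ∑ j, a j z * conj (a j z)) p l
      = (b * S + A * t) + conj (b * S + A * t) + A * conj A * S + U := by
    rw [← Dv_Db l (ContDiffAt.sum fun j _ => (hp j).mul (contDiffAt_conj (hp j))),
      Dv_congr l (g := fun z => ∑ j, (Db l (a j) z * conj (a j z) + a j z * conj (Dv l (a j) z)))
        (ha.mono fun z hz => by
          rw [Db_sum l fun j => (hz j).mul (contDiffAt_conj (hz j))]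
          exact Finset.sum_congr rfl fun j _ => by
            rw [Db_mul l (hz j) (contDiffAt_conj (hz j)), Db_conj]),
      Dv_sum l fun j => ((Db_smooth l (hp j)).mul (contDiffAt_conj (hp j))).add
        ((hp j).mul (contDiffAt_conj (Dv_smooth l (hp j)))), ← hSc, ← hUc, ht]
    simp only [map_add, map_mul, map_sum, conj_conj, Finset.mul_sum, ← Finset.sum_add_distrib]
    refine Finset.sum_congr rfl fun j _ => ?_
    rw [Dv_add l ((Db_smooth l (hp j)).mul (contDiffAt_conj (hp j)))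
        ((hp j).mul (contDiffAt_conj (Dv_smooth l (hp j)))),
      Dv_mul l (Db_smooth l (hp j)) (contDiffAt_conj (hp j)),
      Dv_mul l (hp j) (contDiffAt_conj (Dv_smooth l (hp j))), Dv_conj, Dv_conj, Dv_Db l (hp j),
      Db_Dv l (hp j), h1, h2, map_add, map_mul, map_mul, map_mul]
    ring
  have cs : ‖t‖ ^ 2 ≤ U * S := by
    have h3 : ‖t‖ ≤ ∑ j, ‖Dv l (a j) p‖ * ‖a j p‖ :=
      (norm_sum_le _ _).trans (le_of_eq (Finset.sum_congr rfl fun j _ => by simp))
    rw [hU, hSa]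
    exact (pow_le_pow_left₀ (norm_nonneg _) h3 2).trans (Finset.sum_mul_sq_le_sq_mul_sq _ _ _)
  rw [e1, e2]
  rw [Complex.sq_norm, normSq_apply] at cs ⊢
  simp only [add_re, mul_re, conj_re, conj_im, ofReal_re, ofReal_im, add_im, mul_im]
  have h4 : 0 ≤ (U * S - (t.re * t.re + t.im * t.im)) / S ^ 2 :=
    div_nonneg (sub_nonneg.2 cs) (by positivity)
  refine le_of_sub_nonneg (h4.trans_eq ?_)
  field_simp
  ring

theorem nul (L : Lv0) (h : StmtD2) : StmtNUL := by
  intro N ρ K T α hρ hK hT hα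
  obtain ⟨-, -, -, hP⟩ := L.pf N
  obtain ⟨hRo, -, h0, hreg, htr, -, hnull⟩ := hP ρ hρ
  have hn2 : ∀ z : E N, ContDiffAt ℝ ∞ (fun z : E N => ‖z‖ ^ 2) z := fun z =>
    (contDiff_norm_sq ℝ).contDiffAt
  refine ⟨⟨fun z hz => ?_, fun c hc z => ?_⟩, fun p hp => ?_⟩
  · exact (((hreg z hz).2.1.mul (hn2 z)).log
      (mul_pos (hreg z hz).1 (pow_pos (norm_pos_iff.2 hz.1) 2)).ne').contDiffWithinAt
  · by_cases hz : z = 0
    · simp [hz]
    · have hc' : ‖c‖ ≠ 0 := norm_ne_zero_iff.2 hc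
      simp only [((h0 z hz).2.2.2.1 c hc).2.1, norm_smul]
      congr 1
      field_simp
  have hp0 : p ≠ 0 := fun e => hK.cone.1 (e ▸ hp)
  have hpR : p ∈ Reg ρ := (hnull p hp0 (hK.bd p hp)).1
  have hev : ∀ᶠ z in 𝓝 p, z ∈ Reg ρ := hRo.mem_nhds hpR
  have hρs : ∀ z, z ≠ 0 → ContDiffAt ℝ ∞ (cx ρ) z := fun z hz =>
    contDiffAt_cx (hρ.smooth.contDiffAt (isOpen_E0.mem_nhds hz))
  obtain ⟨hS, han, -, hnn, -, hPP, hPa, hPt⟩ := hreg p hpR
  have hN : 0 < ‖p‖ ^ 2 := pow_pos (norm_pos_iff.2 hp0) 2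
  have hl1 := (Real.contDiffAt_log (n := ∞)).2 hS.ne'
  have hl2 := (Real.contDiffAt_log (n := ∞)).2 hN.ne'
  have hdl : ∀ x : ℝ, deriv (deriv Real.log) x = -(x ^ 2)⁻¹ := fun x => by
    rw [Real.deriv_log', deriv_inv]
  have e1 : trH ρ (fun z => Real.log (an ρ z * ‖z‖ ^ 2)) p
      = trH ρ (fun z => Real.log (an ρ z)) p + trH ρ (fun z => Real.log (‖z‖ ^ 2)) p := by
    have := (htr p hpR _ (han.log hS.ne')).2.2.2.1 _ ((hn2 p).log hN.ne') 1 1
    simp only [one_mul] at this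
    rw [← this]
    have hc : (cx fun z => Real.log (an ρ z * ‖z‖ ^ 2)) =ᶠ[𝓝 p]
        cx fun z => Real.log (an ρ z) + Real.log (‖z‖ ^ 2) := hev.mono fun z hz => by
      simp only [cx]
      rw [Real.log_mul (hreg z hz).1.ne' (pow_pos (norm_pos_iff.2 hz.1) 2).ne']
    simp only [trH, fun j k => dz_congr (dzb_congr' hc k) j]
  have e2 : trH ρ (fun z => Real.log (‖z‖ ^ 2)) p = ((N : ℝ) - 2) / ‖p‖ ^ 2 := by
    rw [(htr p hpR _ (hn2 p)).2.2.2.2 _ hl2, Real.deriv_log]
    have e3 : ∀ c, Lf (lc ρ c) (cx fun z : E N => ‖z‖ ^ 2) p = 0 := fun c => by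
      simp only [Lf, lc, dz_normSq, mul_comm (PP ρ p _ c)]
      exact (hPa c).2.1
    have e4 : trH ρ (fun z : E N => ‖z‖ ^ 2) p = (N : ℝ) - 2 := by
      have : ∀ k : Fin N, dzb k (cx fun z : E N => ‖z‖ ^ 2) = fun z => z k :=
        fun k => funext fun z => dzb_normSq k z
      simp only [trH, this, dz_coord, ite_mul, one_mul, zero_mul, Finset.sum_ite_eq,
        Finset.mem_univ, if_true, hPt]
      simp
    simp only [e3, e4, norm_zero]
    simp [div_eq_inv_mul]
  have e5 : ∑ l, ∑ k, PP ρ p l k * dz l (α k) p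
      = ∑ c, ∑ k, conj (PP ρ p k c) * Dv (fun j => PP ρ p j c) (α k) p := by
    simp only [Dv, Finset.mul_sum]
    conv_rhs => rw [Finset.sum_comm]
    rw [Finset.sum_comm]
    refine Finset.sum_congr rfl fun k _ => ?_
    conv_rhs => rw [Finset.sum_comm]
    refine Finset.sum_congr rfl fun l _ => ?_
    rw [← (hPP l k).2.2, Finset.sum_mul]
    exact Finset.sum_congr rfl fun _ _ => by ring
  rw [e1, e2, add_comm, add_le_add_iff_right, (htr p hpR _ han).2.2.2.2 _ hl1, Real.deriv_log, hdl,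
    (htr p hpR _ han).2.1, e5, re_sum, Finset.mul_sum, Finset.mul_sum, Finset.mul_sum,
    ← Finset.sum_add_distrib]
  refine Finset.sum_le_sum fun c _ => ?_
  set l : Fin N → ℂ := fun j => PP ρ p j c with hl
  have hanc : cx (an ρ) = fun z => ∑ j, dz j (cx ρ) z * conj (dz j (cx ρ) z) := by
    funext z
    simp only [cx, an, ofReal_sum, ofReal_pow, mul_conj']
  have ha : ∀ j, ContDiffAt ℝ ∞ (dz j (cx ρ)) p := fun j => contDiffAt_dz j (hρs p hp0)
  have hαs : ∀ k, ContDiffAt ℝ ∞ (α k) p := fun k =>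
    (hα.smooth k).contDiffAt (isOpen_E0.mem_nhds hp0)
  have hdb : ∀ z, z ≠ 0 → ∀ (w : Fin N → ℂ) (j : Fin N),
      Db w (dz j (cx ρ)) z = ∑ k, conj (w k) * dz j (dzb k (cx ρ)) z := fun z hz w j => by
    simp only [Db, fun k => dz_dzb_comm j k (hρs z hz)]
  have hw : av ρ p (WithLp.toLp 2 l) = 0 := (hPa c).1
  have h1 : ∀ j, Db l (dz j (cx ρ)) p = (∑ k, conj (l k) * α k p) * dz j (cx ρ) p := fun j => by
    rw [hdb p hp0]; exact hα.eq p hp _ hw j
  rw [show Lf (lc ρ c) (cx (an ρ)) p = Dv l (cx (an ρ)) p from rfl, hanc]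
  refine log_hess l (hev.mono fun z hz j => contDiffAt_dz j (hρs z hz.1)) hS rfl h1 fun j => ?_
  let s : E N → ℂ := fun z => ∑ m, l m * dz m (cx ρ) z
  let β : E N → ℂ := fun z => ∑ k, conj (l k) * α k z
  let H : E N → ℂ := fun z => ∑ k, conj (nn ρ k z) * (dzb k (dz j (cx ρ)) z - α k z * dz j (cx ρ) z)
  have hs : ContDiffAt ℝ ∞ s p := ContDiffAt.sum fun m _ => contDiffAt_const.mul (ha m)
  have hβ : ContDiffAt ℝ ∞ β p := ContDiffAt.sum fun m _ => contDiffAt_const.mul (hαs m)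
  have hH : ContDiffAt ℝ ∞ H p := ContDiffAt.sum fun k _ => (contDiffAt_conj (hnn k)).mul
    ((contDiffAt_dzb k (ha j)).sub ((hαs k).mul (ha j)))
  have hs0 : s p = 0 := by
    rw [← hw]; exact Finset.sum_congr rfl fun m _ => mul_comm _ _
  have hds : Db l s p = 0 := by
    rw [Db_sum l fun m => contDiffAt_const.mul (ha m)]
    have : ∀ m, Db l (fun z => l m * dz m (cx ρ) z) p = β p * (l m * dz m (cx ρ) p) := fun m => by
      rw [Db_mul l contDiffAt_const (ha m), h1]
      simp only [Db, dzb_const, mul_zero, Finset.sum_const_zero, β]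
      ring
    simp only [this, ← Finset.mul_sum]
    exact mul_eq_zero_of_right _ hs0
  have hg := (Db_smooth l (ha j)).sub (hβ.mul (ha j))
  have hq := (contDiffAt_conj hs).mul hH
  have hF := ((h N ρ K hρ hK).2 hT p hp
    (fun z => Db l (dz j (cx ρ)) z - β z * dz j (cx ρ) z - conj (s z) * H z)
    (ContDiffAt.da (hg.sub hq)) (hev.mono fun z hz hzK => ?_) _ hw).2.1
  · change Dv l _ p = 0 at hF
    rw [Dv_sub l hg hq, Dv_sub l (Db_smooth l (ha j)) (hβ.mul (ha j)), Dv_mul l hβ (ha j),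
      Dv_mul l (contDiffAt_conj hs) hH, Dv_conj, hds, hs0, Dv_Db l (ha j),
      Dv_sum l fun k => contDiffAt_const.mul (hαs k)] at hF
    have : ∀ k, Dv l (fun z => conj (l k) * α k z) p = conj (l k) * Dv l (α k) p := fun k => by
      rw [Dv_mul l contDiffAt_const (hαs k)]
      simp [Dv]
    simp only [this, map_zero] at hF
    linear_combination hF
  · have haz : (an ρ z : ℂ) ≠ 0 := ofReal_ne_zero.2 (hreg z hz).1.ne'
    have hw' : av ρ z (WithLp.toLp 2 fun k => l k - s z * nn ρ k z) = 0 := by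
      have e6 : ∑ k, dz k (cx ρ) z * (s z * nn ρ k z) = s z * (cx (an ρ) z / (an ρ z : ℝ)) := by
        rw [hanc]
        simp only [nn, Finset.sum_div, Finset.mul_sum]
        exact Finset.sum_congr rfl fun _ _ => by ring
      simp only [av, mul_sub, Finset.sum_sub_distrib, e6, div_self haz, mul_one]
      exact sub_eq_zero.2 (Finset.sum_congr rfl fun m _ => mul_comm _ _)
    have e7 := hα.eq z hzK _ hw' j
    simp only [map_sub, map_mul, sub_mul, Finset.sum_sub_distrib,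
      fun k => dz_dzb_comm j k (hρs z hz.1)] at e7
    simp only [Db, β, H, mul_sub, Finset.sum_sub_distrib, Finset.mul_sum, Finset.sum_mul,
      mul_assoc] at e7 ⊢
    linear_combination e7

end Pool.Agent.MP_fcd29e_an.H59
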