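import Pool.Agent.MP_fcd29e_an.H81.Spec2

/-! Row TK2: the extension of the D'Angelo form in the thick case. -/

set_option autoImplicit false

open Pool.Agent.MP_fcd29e_an.H81 MeasureTheory Complex Set Filter Topology Metric
open scoped ContDiff ComplexConjugate ENNReal NNReal

namespace Pool.Agent.MP_fcd29e_an.H59

variable {N : ℕ}

theorem dzbOn {U : Set (E N)} (hU : IsOpen U) {g : E N → ℂ} (hg : ContDiffOn ℝ ∞ g U) (k : Fin N) :
    ContDiffOn ℝ ∞ (dzb k g) U := fun _ hz =>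
  (contDiffAt_dzb k (hg.contDiffAt (hU.mem_nhds hz))).contDiffWithinAt

theorem conjOn {U : Set (E N)} {g : E N → ℂ} (hg : ContDiffOn ℝ ∞ g U) :
    ContDiffOn ℝ ∞ (fun z => conj (g z)) U := conjCLE.contDiff.comp_contDiffOn hg

theorem comm_normal {U : Set (E N)} (hU : IsOpen U) {s A R : E N → ℂ} {ν : Fin N → E N → ℂ}
    (hs : ContDiffOn ℝ ∞ s U) (hA : ContDiffOn ℝ ∞ A U) (hR : ContDiffOn ℝ ∞ R U)
    (hν : ∀ l, ContDiffOn ℝ ∞ (ν l) U) (T : ℕ)
    (h : ∀ z ∈ U, ∑ l, ν l z * dzb l A z = s z ^ (T + 2) * R z) (k : Fin N) {z : E N}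
    (hz : z ∈ U) : ∑ l, ν l z * dzb l (dzb k A) z =
      s z ^ (T + 1) * ((T + 2 : ℕ) * dzb k s z * R z + s z * dzb k R z)
        - ∑ l, dzb k (ν l) z * dzb l A z := by
  have da : ∀ {g : E N → ℂ}, ContDiffOn ℝ ∞ g U → DifferentiableAt ℝ g z := fun hg =>
    ContDiffAt.da (hg.contDiffAt (hU.mem_nhds hz))
  have h1 : dzb k (fun y => ∑ l, ν l y * dzb l A y) z = dzb k (fun y => s y ^ (T + 2) * R y) z :=
    dzb_congr (eventually_of_mem (hU.mem_nhds hz) h) k
  rw [dzb_sum k _ fun l _ => (da (hν l)).fun_mul (da (dzbOn hU hA l)),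
    dzb_mul k (da (hs.pow _)) (da hR), dzb_comp_hol k (da hs) (hasDerivAt_pow (T + 2) (s z))] at h1
  simp only [fun l => dzb_mul k (da (hν l)) (da (dzbOn hU hA l)), Finset.sum_add_distrib,
    fun l => dzb_dzb_comm k l (hA.contDiffAt (hU.mem_nhds hz))] at h1
  rw [eq_sub_iff_add_eq', h1, show T + 2 - 1 = T + 1 from rfl]
  ring

theorem tk2 (L : Lv0) (hf : StmtFL) (h1 : StmtTK1) : StmtTK2 := by
  intro N ρ K hρ hK hth T
  obtain ⟨A, R, hAR⟩ := h1 N ρ hρ (T + 2)
  obtain ⟨hH, -, -, hP⟩ := L.pf N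
  obtain ⟨hRo, hRc, -, hreg, -, -, hnull⟩ := hP ρ hρ
  have hK0 : ∀ z ∈ K, z ≠ 0 := fun z hz h => hK.cone.1 (h ▸ hz)
  have hKR : ∀ z ∈ K, z ∈ Reg ρ := fun z hz => (hnull z (hK0 z hz) (hK.bd z hz)).1
  set S : E N → ℂ := fun z => ∑ j, conj (A j z) * A j z with hS
  have hSs : ContDiffOn ℝ ∞ S (Reg ρ) :=
    ContDiffOn.sum fun j _ => (conjOn (hAR j).1).mul (hAR j).1
  set U : Set (E N) := Reg ρ ∩ S ⁻¹' {0}ᶜ with hU
  have hUo : IsOpen U := hSs.continuousOn.isOpen_inter_preimage hRo isOpen_compl_singleton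
  have hUR : U ⊆ Reg ρ := inter_subset_left
  have hS0 : ∀ z ∈ U, S z ≠ 0 := fun z hz => hz.2
  have hAc : ∀ c : ℂ, c ≠ 0 → ∀ z ∈ Reg ρ, ∀ j, A j (c • z) = c⁻¹ * A j z := by
    intro c hc z hz j
    simpa using (hAR j).2.2.1 c hc z hz
  have hSc : ∀ c : ℂ, c ≠ 0 → ∀ z ∈ Reg ρ, S (c • z) = (conj c)⁻¹ * c⁻¹ * S z := by
    intro c hc z hz
    simp only [hS, hAc c hc z hz, map_mul, map_inv₀, Finset.mul_sum]
    exact Finset.sum_congr rfl fun j _ => by ring
  have han : ∀ z, (an ρ z : ℂ) = ∑ j, conj (dz j (cx ρ) z) * dz j (cx ρ) z := by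
    intro z
    simp only [an, ofReal_sum, ofReal_pow, conj_mul']
  have hKU : K ⊆ U := by
    intro z hz
    refine ⟨hKR z hz, fun h => ?_⟩
    have h2 : S z = an ρ z := by
      rw [han]
      exact Finset.sum_congr rfl fun j _ => by
        rw [((hAR j).2.2.2.2 z (hKR z hz) (hK.bd z hz)).1]
    rw [mem_singleton_iff.1 h] at h2
    exact (hreg z (hKR z hz)).1.ne' (ofReal_eq_zero.1 h2.symm)
  have hA : ∀ j, ContDiffOn ℝ ∞ (A j) U := fun j => (hAR j).1.mono hUR
  have hR : ∀ j, ContDiffOn ℝ ∞ (R j) U := fun j => (hAR j).2.1.mono hUR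
  have hdA : ∀ k j, ContDiffOn ℝ ∞ (dzb k (A j)) U := fun k j => dzbOn hUo (hA j) k
  have hs : ContDiffOn ℝ ∞ (cx ρ) U :=
    ofRealCLM.contDiff.comp_contDiffOn (hρ.smooth.mono fun z hz => hz.1.1)
  have hν : ∀ l, ContDiffOn ℝ ∞ (fun z => conj (nn ρ l z)) U := fun l =>
    conjOn fun z hz => ((hreg z hz.1).2.2.2.1 l).contDiffWithinAt
  have da : ∀ {g : E N → ℂ}, ContDiffOn ℝ ∞ g U → ∀ z ∈ U, DifferentiableAt ℝ g z :=
    fun hg z hz => ContDiffAt.da (hg.contDiffAt (hUo.mem_nhds hz))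
  obtain ⟨f1, -, f3, f4, -, f6⟩ := hf N K U hUo hKU
  set n : Fin N → Fin N → Fin N → E N → ℂ :=
    fun i j k z => A i z * dzb k (A j) z - A j z * dzb k (A i) z with hn
  have hns : ∀ i j k, ContDiffOn ℝ ∞ (n i j k) U := fun i j k =>
    ((hA i).mul (hdA k j)).sub ((hA j).mul (hdA k i))
  have hn0 : ∀ i j k, ∀ z ∈ K, n i j k z = 0 := by
    intro i j k z hz
    have ha : (an ρ z : ℂ) ≠ 0 := ofReal_ne_zero.2 (hreg z (hKR z hz)).1.ne'
    let w : E N := WithLp.toLp 2 fun l => (if l = k then 1 else 0) - dz k (cx ρ) z * nn ρ l z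
    have hw : av ρ z w = 0 := by
      simp only [av, w, nn, mul_sub, Finset.sum_sub_distrib, mul_ite, mul_one, mul_zero,
        Finset.sum_ite_eq', Finset.mem_univ, if_true]
      have : ∑ l, dz l (cx ρ) z * (dz k (cx ρ) z * (conj (dz l (cx ρ) z) / (an ρ z : ℝ)))
          = dz k (cx ρ) z * (an ρ z : ℂ) / (an ρ z : ℝ) := by
        rw [han, Finset.mul_sum, Finset.sum_div]
        exact Finset.sum_congr rfl fun l _ => by rw [← han]; ring
      rw [this]
      field_simp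
      ring
    obtain ⟨β, hβ⟩ := (hnull z (hK0 z hz) (hK.bd z hz)).2.2 (hK.null z hz) w hw
    have e : ∀ j, dzb k (A j) z = β * A j z := by
      intro j
      obtain ⟨e1, e2⟩ := (hAR j).2.2.2.2 z (hKR z hz) (hK.bd z hz)
      have e3 := (hAR j).2.2.2.1 z (hKR z hz)
      rw [hK.bd z hz, ofReal_zero, zero_pow (by omega), zero_mul, Lb] at e3
      rw [e1, ← hβ j, ← e2 w hw]
      simp only [w, map_sub, map_mul, sub_mul, Finset.sum_sub_distrib, mul_assoc,
        ← Finset.mul_sum, e3, apply_ite conj, map_one, map_zero, ite_mul, one_mul, zero_mul,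
        Finset.sum_ite_eq', Finset.mem_univ, if_true, mul_zero, sub_zero]
    simp only [hn, e]
    ring
  have hnF : ∀ i j k, Fl K (T + 1) (n i j k) := by
    intro i j
    let q : Fin N → Fin N → E N → ℂ := fun k j z =>
      (T + 2 : ℕ) * dzb k (cx ρ) z * R j z + cx ρ z * dzb k (R j) z
    have hq : ∀ k j, ContDiffOn ℝ ∞ (q k j) U := fun k j =>
      ((contDiffOn_const.mul (dzbOn hUo hs k)).mul (hR j)).add (hs.mul (dzbOn hUo (hR j) k))
    refine f6 ρ hρ hUR hK hth T (Fin N) (n i j)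
      (fun k z => cx ρ z * R i z * dzb k (A j) z + A i z * q k j z
        - (cx ρ z * R j z * dzb k (A i) z + A j z * q k i z))
      (fun k l z => -dzb k (fun z => conj (nn ρ l z)) z) (hns i j)
      (fun k => (((hs.mul (hR i)).mul (hdA k j)).add ((hA i).mul (hq k j))).sub
        (((hs.mul (hR j)).mul (hdA k i)).add ((hA j).mul (hq k i))))
      (fun k l => (dzbOn hUo (hν l) k).neg) (hn0 i j) fun k z hz => ?_
    have e1 := fun j => comm_normal hUo hs (hA j) (hR j) hν T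
      (fun z hz => (hAR j).2.2.2.1 z hz.1) k hz
    have e2 := fun j => (hAR j).2.2.2.1 z hz.1
    have e3 : ∀ l, dzb l (n i j k) z = dzb l (A i) z * dzb k (A j) z
        + A i z * dzb l (dzb k (A j)) z
        - (dzb l (A j) z * dzb k (A i) z + A j z * dzb l (dzb k (A i)) z) := by
      intro l
      rw [hn, dzb_sub l (da ((hA i).mul (hdA k j)) z hz) (da ((hA j).mul (hdA k i)) z hz),
        dzb_mul l (da (hA i) z hz) (da (hdA k j) z hz),
        dzb_mul l (da (hA j) z hz) (da (hdA k i) z hz)]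
    have e4 : Lb (nn ρ) (n i j k) z = Lb (nn ρ) (A i) z * dzb k (A j) z
        + A i z * ∑ l, conj (nn ρ l z) * dzb l (dzb k (A j)) z
        - (Lb (nn ρ) (A j) z * dzb k (A i) z
          + A j z * ∑ l, conj (nn ρ l z) * dzb l (dzb k (A i)) z) := by
      simp only [Lb, e3, Finset.mul_sum, Finset.sum_mul, ← Finset.sum_add_distrib,
        ← Finset.sum_sub_distrib]
      exact Finset.sum_congr rfl fun l _ => by ring
    have e5 : ∑ l, -dzb k (fun z => conj (nn ρ l z)) z * n i j l z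
        = A j z * ∑ l, dzb k (fun z => conj (nn ρ l z)) z * dzb l (A i) z
          - A i z * ∑ l, dzb k (fun z => conj (nn ρ l z)) z * dzb l (A j) z := by
      simp only [hn, Finset.mul_sum, ← Finset.sum_sub_distrib]
      exact Finset.sum_congr rfl fun l _ => by ring
    rw [e4, e5, e1, e1, e2, e2]
    simp only [q]
    ring
  set B : Fin N → E N → ℂ := fun j z => conj (A j z) / S z with hB
  have hBs : ∀ j, ContDiffOn ℝ ∞ (B j) U := fun j =>
    (conjOn (hA j)).mul ((hSs.mono hUR).inv hS0)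
  have hBA : ∀ z ∈ U, ∑ j, B j z * A j z = 1 := by
    intro z hz
    simp only [hB, div_mul_eq_mul_div, ← Finset.sum_div]
    exact div_self (hS0 z hz)
  set α : Fin N → E N → ℂ := fun k z => ∑ j, B j z * dzb k (A j) z with hα
  have hαs : ∀ k, ContDiffOn ℝ ∞ (α k) U := fun k =>
    ContDiffOn.sum fun j _ => (hBs j).mul (hdA k j)
  set μ : Fin N → Fin N → E N → ℂ := fun j k z => ∑ i, B i z * n i j k z with hμ
  have hμs : ∀ j k, ContDiffOn ℝ ∞ (μ j k) U := fun j k =>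
    ContDiffOn.sum fun i _ => (hBs i).mul (hns i j k)
  have hμF : ∀ j k, Fl K (T + 1) (μ j k) := fun j k =>
    f3 _ _ _ _ fun i _ => ⟨(hBs i).mul (hns i j k),
      ((f1 _ _ (hnF i j k)).2.2.2 (hns i j k) _ (hBs i)).1⟩
  have hdec : ∀ j k, ∀ z ∈ U, dzb k (A j) z = α k z * A j z + μ j k z := by
    intro j k z hz
    have : α k z * A j z + μ j k z = (∑ i, B i z * A i z) * dzb k (A j) z := by
      simp only [hα, hμ, hn, Finset.sum_mul, ← Finset.sum_add_distrib]
      exact Finset.sum_congr rfl fun l _ => by ring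
    rw [this, hBA z hz, one_mul]
  refine ⟨U, α, hUo, ⟨fun h => hRc.1 h.1, fun c hc z hz => ⟨hRc.2 c hc z hz.1, ?_⟩⟩, hKU,
    hαs, fun k c hc z hz => ?_, fun z hz => ?_, fun l k => ?_, fun z hz w hw j => ?_⟩
  · change S (c • z) ≠ 0
    rw [hSc c hc z hz.1]
    exact mul_ne_zero (mul_ne_zero (inv_ne_zero (by simpa using hc)) (inv_ne_zero hc)) (hS0 z hz)
  · have hc' : conj c ≠ 0 := by simpa using hc
    simp only [hα, hB, Finset.mul_sum]
    refine Finset.sum_congr rfl fun j _ => ?_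
    rw [((hH _ _ _ _ hRo hRc (hAR j).2.2.1).1 k).2 c hc z hz.1, hAc c hc z hz.1, hSc c hc z hz.1]
    have := hS0 z hz
    simp only [map_mul, map_inv₀, zero_sub, zpow_neg, zpow_one, zpow_zero]
    field_simp
  · have e : ∀ j, ∑ k, conj (z k) * dzb k (A j) z = 0 := fun j => by
      simpa using ((hH _ _ _ _ hRo hRc (hAR j).2.2.1).2 z hz.1 (da (hA j) z hz)).2
    simp only [hα, Finset.mul_sum]
    rw [Finset.sum_comm]
    refine Finset.sum_eq_zero fun j _ => ?_
    have : ∑ k, conj (z k) * (B j z * dzb k (A j) z) = B j z * ∑ k, conj (z k) * dzb k (A j) z := by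
      rw [Finset.mul_sum]; exact Finset.sum_congr rfl fun l _ => by ring
    rw [this, e, mul_zero]
  · have hμT : ∀ j k, Fl K T (μ j k) := fun j k => (f1 _ _ (hμF j k)).1 T (Nat.le_succ T)
    let G : Fin N → Fin N → Fin N → E N → ℂ := fun j l k z => α l z * μ j k z + dzb k (μ j l) z
    have hGs : ∀ j l k, ContDiffOn ℝ ∞ (G j l k) U := fun j l k =>
      ((hαs l).mul (hμs j k)).add (dzbOn hUo (hμs j l) k)
    have hGF : ∀ j l k, Fl K T (G j l k) := fun j l k =>
      (((f1 _ _ ((f1 _ _ (hμT j k)).2.2.2 (hμs j k) _ (hαs l)).1).2.2.2 ((hαs l).mul (hμs j k)) _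
        (dzbOn hUo (hμs j l) k)).2 (f4 T _ k (hμs j l) (hμF j l)).2).1
    have hF : Fl K T fun z => ∑ j, B j z * (G j l k z - G j k l z) :=
      f3 _ _ _ _ fun j _ => ⟨(hBs j).mul ((hGs j l k).sub (hGs j k l)),
        ((f1 _ _ (((f1 _ _ (hGF j l k)).2.2.2 (hGs j l k) _ (hGs j k l)).2 (hGF j k l)).2).2.2.2
          ((hGs j l k).sub (hGs j k l)) _ (hBs j)).1⟩
    refine (f1 _ _ hF).2.2.1 _ fun z hz => eventually_of_mem (hUo.mem_nhds (hKU hz)) fun y hy => ?_
    have e1 : ∀ j l k, dzb l (dzb k (A j)) y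
        = dzb l (α k) y * A j y + α k y * (α l y * A j y + μ j l y) + dzb l (μ j k) y := by
      intro j l k
      rw [dzb_congr (eventually_of_mem (hUo.mem_nhds hy) (hdec j k)) l,
        dzb_add l (da ((hαs k).mul (hA j)) y hy) (da (hμs j k) y hy),
        dzb_mul l (da (hαs k) y hy) (da (hA j) y hy), hdec j l y hy]
    have e2 : ∀ j, G j l k y - G j k l y = d1 α l k y * A j y := by
      intro j
      have e3 := dzb_dzb_comm l k ((hA j).contDiffAt (hUo.mem_nhds hy))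
      rw [e1, e1] at e3
      simp only [G, d1]
      linear_combination -e3
    simp only [e2]
    have : ∑ j, B j y * (d1 α l k y * A j y) = d1 α l k y * ∑ j, B j y * A j y := by
      rw [Finset.mul_sum]; exact Finset.sum_congr rfl fun l _ => by ring
    rw [this, hBA y hy, mul_one]
  · obtain ⟨e1, e2⟩ := (hAR j).2.2.2.2 z (hKR z hz) (hK.bd z hz)
    rw [← e2 w hw, ← e1, Finset.sum_mul]
    refine Finset.sum_congr rfl fun k _ => ?_
    rw [hdec j k z (hKU hz), (f1 _ _ (hμF j k)).2.1 z hz]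
    ring

end Pool.Agent.MP_fcd29e_an.H59
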